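import Pool.Agent.K7.H25.SB.Stm

/-!
# MP_8790b5_co: job TWO (two points on each level give twice the length)
-/

set_option autoImplicit false

open scoped MeasureTheory ENNReal Topology InnerProductSpace
open MeasureTheory Set Filter Metric

namespace Pool.Agent.K7.H88.SB

open Pool.Agent.R154.Steiner Pool.Agent.K7.H25.SB

lemma two_aux (T : Set Pl) (f : Pl → ℝ) (J I : Set ℝ) (ε : ℝ) (hε : 0 < ε) (hT : IsClosed T)
    (hf : LipschitzWith 1 f) (hJ : MeasurableSet J) (hI : MeasurableSet I) (hIJ : I ⊆ J)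
    (h : ∀ τ ∈ I, ∃ x ∈ T, ∃ y ∈ T, ε ≤ dist x y ∧ f x = τ ∧ f y = τ) :
    2 * volume I ≤ μH[1] (T ∩ f ⁻¹' J) := by
  classical
  let B : ℕ → Set Pl := fun k => ball (TopologicalSpace.denseSeq Pl k) (ε / 2)
  have hBm : ∀ k, MeasurableSet (B k) := fun k => measurableSet_ball
  let P : ℕ → Set Pl := disjointed B
  have hPm : ∀ k, MeasurableSet (P k) := fun k => MeasurableSet.disjointed hBm k
  have hPd : Pairwise (Function.onFun Disjoint P) := disjoint_disjointed B
  have hPB : ∀ k, P k ⊆ B k := fun k => disjointed_subset B k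
  have hU : ∀ x : Pl, ∃ k, x ∈ P k := by
    intro x
    have h1 : x ∈ ⋃ k, B k := by
      obtain ⟨y, hy, k, rfl⟩ := Metric.dense_iff.mp (TopologicalSpace.denseRange_denseSeq Pl) x (ε / 2)
        (by positivity)
      refine mem_iUnion.mpr ⟨k, ?_⟩
      rw [mem_ball, dist_comm] at hy
      exact hy
    rw [← iUnion_disjointed] at h1
    exact mem_iUnion.mp h1
  have hdis : ∀ x y k, x ∈ P k → y ∈ P k → dist x y < ε := by
    intro x y k hx hy
    have h1 := mem_ball.mp (hPB k hx)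
    have h2 := mem_ball.mp (hPB k hy)
    calc dist x y ≤ dist x (TopologicalSpace.denseSeq Pl k) + dist y (TopologicalSpace.denseSeq Pl k) :=
          dist_triangle_right _ _ _
      _ < ε / 2 + ε / 2 := add_lt_add h1 h2
      _ = ε := by ring
  let Q : ℕ → Set Pl := fun k => (T ∩ f ⁻¹' J) ∩ P k
  have hTm : MeasurableSet (T ∩ f ⁻¹' J) := hT.measurableSet.inter (hf.continuous.measurable hJ)
  have hQm : ∀ k, MeasurableSet (Q k) := fun k => hTm.inter (hPm k)
  have hsum : ∑' k, μH[1] (Q k) = μH[1] (T ∩ f ⁻¹' J) := by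
    rw [← measure_iUnion (fun i j hij => ((hPd hij).mono inter_subset_right inter_subset_right)) hQm]
    congr 1
    rw [← inter_iUnion]
    refine inter_eq_left.mpr fun x _ => mem_iUnion.mpr (hU x)
  let V : ℕ → Set ℝ := fun k => toMeasurable volume (f '' Q k)
  have hVm : ∀ k, MeasurableSet (V k) := fun k => measurableSet_toMeasurable _ _
  have hVle : ∀ k, volume (V k) ≤ μH[1] (Q k) := by
    intro k
    rw [measure_toMeasurable]
    exact H_lip hf _
  have hpt : ∀ τ ∈ I, (2 : ℝ≥0∞) ≤ ∑' k, (V k).indicator (fun _ => (1 : ℝ≥0∞)) τ := by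
    intro τ hτ
    obtain ⟨x, hx, y, hy, hxy, hfx, hfy⟩ := h τ hτ
    obtain ⟨i, hi⟩ := hU x
    obtain ⟨j, hj⟩ := hU y
    have hij : i ≠ j := by
      rintro rfl
      exact absurd (hdis x y i hi hj) (not_lt.mpr hxy)
    have hi' : τ ∈ V i := subset_toMeasurable _ _
      ⟨x, ⟨⟨hx, by rw [mem_preimage, hfx]; exact hIJ hτ⟩, hi⟩, hfx⟩
    have hj' : τ ∈ V j := subset_toMeasurable _ _
      ⟨y, ⟨⟨hy, by rw [mem_preimage, hfy]; exact hIJ hτ⟩, hj⟩, hfy⟩
    have h2 := ENNReal.sum_le_tsum (f := fun k => (V k).indicator (fun _ => (1 : ℝ≥0∞)) τ) {i, j}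
    rw [Finset.sum_pair hij, indicator_of_mem hi', indicator_of_mem hj'] at h2
    refine le_trans ?_ h2
    norm_num
  calc 2 * volume I = ∫⁻ τ in I, 2 := by simp [lintegral_const]
    _ ≤ ∫⁻ τ in I, ∑' k, (V k).indicator (fun _ => (1 : ℝ≥0∞)) τ :=
        setLIntegral_mono' hI hpt
    _ ≤ ∫⁻ τ, ∑' k, (V k).indicator (fun _ => (1 : ℝ≥0∞)) τ := setLIntegral_le_lintegral _ _
    _ = ∑' k, ∫⁻ τ, (V k).indicator (fun _ => (1 : ℝ≥0∞)) τ :=
        lintegral_tsum fun k => (measurable_const.indicator (hVm k)).aemeasurable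
    _ = ∑' k, volume (V k) := by
        congr 1
        funext k
        rw [lintegral_indicator (hVm k)]
        simp
    _ ≤ ∑' k, μH[1] (Q k) := ENNReal.tsum_le_tsum hVle
    _ = μH[1] (T ∩ f ⁻¹' J) := hsum

/-- J1: two points on each level give twice the length. -/
theorem two : StTwo := by
  intro T f a b hT hf h
  let C : ℕ → Set (Pl × Pl) := fun n => (T ×ˢ T) ∩ {p | f p.1 = f p.2 ∧ 1 / ((n : ℝ) + 1) ≤ dist p.1 p.2}
  have hC : ∀ n, IsCompact (C n) := by
    intro n
    refine (hT.prod hT).inter_right ?_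
    refine IsClosed.inter ?_ ?_
    · exact isClosed_eq (hf.continuous.comp continuous_fst) (hf.continuous.comp continuous_snd)
    · exact isClosed_le continuous_const (continuous_fst.dist continuous_snd)
  let I : ℕ → Set ℝ := fun n => Ioo a b ∩ (fun p : Pl × Pl => f p.1) '' C n
  have hIm : ∀ n, MeasurableSet (I n) := fun n => measurableSet_Ioo.inter
    ((hC n).image (hf.continuous.comp continuous_fst)).isClosed.measurableSet
  have hmono : Monotone I := by
    intro m n hmn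
    refine inter_subset_inter_right _ (image_mono ?_)
    refine inter_subset_inter_right _ ?_
    rintro p ⟨h1, h2⟩
    refine ⟨h1, le_trans ?_ h2⟩
    exact one_div_le_one_div_of_le (by positivity) (by
      have : (m : ℝ) ≤ n := by exact_mod_cast hmn
      linarith)
  have hU : ⋃ n, I n = Ioo a b := by
    refine subset_antisymm (iUnion_subset fun n => inter_subset_left) ?_
    intro τ hτ
    obtain ⟨x, hx, y, hy, hxy, hfx, hfy⟩ := h τ hτ
    obtain ⟨n, hn⟩ := exists_nat_one_div_lt (dist_pos.mpr hxy)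
    exact mem_iUnion.mpr ⟨n, hτ, (x, y), ⟨⟨hx, hy⟩, by rw [hfx, hfy], hn.le⟩, hfx⟩
  have hn : ∀ n, 2 * volume (I n) ≤ μH[1] (T ∩ f ⁻¹' Ioo a b) := by
    intro n
    refine two_aux T f (Ioo a b) (I n) (1 / ((n : ℝ) + 1)) (by positivity) hT.isClosed hf
      measurableSet_Ioo (hIm n) inter_subset_left ?_
    rintro τ ⟨hτ, ⟨x, y⟩, ⟨⟨hx, hy⟩, hxy, hd⟩, rfl⟩
    exact ⟨x, hx, y, hy, hd, rfl, hxy.symm⟩
  have hv : volume (Ioo a b) = ⨆ n, volume (I n) := by
    rw [← hU]
    exact hmono.measure_iUnion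
  rw [ENNReal.ofReal_mul (by norm_num), ← Real.volume_Ioo, hv, ENNReal.ofReal_ofNat, ENNReal.mul_iSup]
  exact iSup_le hn

end Pool.Agent.K7.H88.SB
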