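import Pool.Agent.K7.H80.EC.Stm2

/-! Job LOC of project EC2 (helper80). -/

set_option autoImplicit false

namespace Pool.Agent.K7.H88.ECLOC

open Finset Pool.Agent.K7.H80.EC

open Classical in
theorem sum_wt_superset (α : Type) [Fintype α] (p : ℝ) (B : Finset α) :
    ∑ W ∈ univ.filter (fun W : Finset α => B ⊆ W), wt α p W = p ^ B.card := by
  have h1 : ∑ W ∈ univ.filter (fun W : Finset α => B ⊆ W), wt α p W
      = ∑ t ∈ (univ \ B).powerset, p ^ B.card *
          (p ^ t.card * (1 - p) ^ ((univ \ B).card - t.card)) := by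
    symm
    refine Finset.sum_bij' (fun t _ => B ∪ t) (fun W _ => W \ B) ?_ ?_ ?_ ?_ ?_
    · intro t ht
      simp
    · intro W hW
      simp only [mem_powerset]
      exact sdiff_subset_sdiff (subset_univ _) le_rfl
    · intro t ht
      rw [mem_powerset] at ht
      have : Disjoint B t := by
        rw [disjoint_left]
        intro a ha hat
        exact (mem_sdiff.mp (ht hat)).2 ha
      exact union_sdiff_cancel_left this
    · intro W hW
      rw [mem_filter] at hW
      exact union_sdiff_of_subset hW.2
    · intro t ht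
      rw [mem_powerset] at ht
      have hd : Disjoint B t := by
        rw [disjoint_left]
        intro a ha hat
        exact (mem_sdiff.mp (ht hat)).2 ha
      unfold wt
      rw [card_union_of_disjoint hd, card_sdiff_of_subset (subset_univ B), card_univ, pow_add,
        mul_assoc, Nat.sub_sub]
  rw [h1, ← mul_sum, Finset.sum_pow_mul_eq_add_pow]
  simp

theorem wt_nonneg (α : Type) [Fintype α] (p : ℝ) (h0 : 0 ≤ p) (h1 : p ≤ 1) (W : Finset α) :
    0 ≤ wt α p W := by
  unfold wt
  have : 0 ≤ 1 - p := by linarith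
  positivity

open Classical in
theorem card_copies (d : ℕ) (e : E d) :
    ((Copies d 2).filter (fun c => InCopy c e)).card ≤ d := by
  have h : ((Copies d 2).filter (fun c => InCopy c e)).card
      ≤ ((univ : Finset (Fin d)).image (fun i => ({e.1.2, i} : Finset (Fin d)))).card := by
    refine Finset.card_le_card_of_injOn (fun c => c.1) ?_ ?_
    · intro c hc
      rw [mem_coe, mem_filter] at hc
      obtain ⟨hc1, hc2⟩ := hc
      rw [Copies, mem_filter] at hc1
      obtain ⟨i, k, hik, hS⟩ := card_eq_two.mp hc1.2.1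
      have hj := hc2.1
      rw [mem_coe, mem_image]
      rw [hS, mem_insert, mem_singleton] at hj
      rcases hj with hj | hj
      · exact ⟨k, mem_univ _, by show ({e.1.2, k} : Finset (Fin d)) = c.1; rw [hS, hj]⟩
      · exact ⟨i, mem_univ _, by
          show ({e.1.2, i} : Finset (Fin d)) = c.1; rw [hS, hj, pair_comm]⟩
    · intro c hc c' hc' hcc
      rw [mem_coe, mem_filter] at hc hc'
      obtain ⟨hc1, hc2⟩ := hc
      obtain ⟨hc1', hc2'⟩ := hc'
      rw [Copies, mem_filter] at hc1 hc1'
      have hcc' : c.1 = c'.1 := hcc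
      refine Prod.ext hcc' ?_
      funext i
      by_cases hi : i ∈ c.1
      · rw [hc1.2.2 i hi, hc1'.2.2 i (hcc' ▸ hi)]
      · rw [← hc2.2 i hi, ← hc2'.2 i (hcc' ▸ hi)]
  refine h.trans (card_image_le.trans ?_)
  simp

open Classical in
theorem four_le (d : ℕ) (c : Finset (Fin d) × (Fin d → Bool)) (hc : c ∈ Copies d 2) :
    4 ≤ (univ.filter (fun f : E d => InCopy c f)).card := by
  rw [Copies, mem_filter] at hc
  obtain ⟨-, hc2, hc3⟩ := hc
  obtain ⟨i, j, hij, hS⟩ := card_eq_two.mp hc2
  have hi : c.2 i = false := hc3 i (by rw [hS]; simp)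
  have hj : c.2 j = false := hc3 j (by rw [hS]; simp)
  let f1 : E d := ⟨(c.2, i), hi⟩
  let f2 : E d := ⟨(c.2, j), hj⟩
  let f3 : E d := ⟨(Function.update c.2 j true, i), by
    simp only [Function.update_of_ne hij]; exact hi⟩
  let f4 : E d := ⟨(Function.update c.2 i true, j), by
    simp only [Function.update_of_ne hij.symm]; exact hj⟩
  have h12 : f1 ≠ f2 := by
    intro h
    have := congrArg (fun z : E d => z.1.2) h
    exact hij this
  have h13 : f1 ≠ f3 := by
    intro h
    have := congrArg (fun z : E d => z.1.1 j) h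
    simp [f1, f3, hj] at this
  have h14 : f1 ≠ f4 := by
    intro h
    have := congrArg (fun z : E d => z.1.2) h
    exact hij this
  have h23 : f2 ≠ f3 := by
    intro h
    have := congrArg (fun z : E d => z.1.2) h
    exact hij this.symm
  have h24 : f2 ≠ f4 := by
    intro h
    have := congrArg (fun z : E d => z.1.1 i) h
    simp [f2, f4, hi] at this
  have h34 : f3 ≠ f4 := by
    intro h
    have := congrArg (fun z : E d => z.1.2) h
    exact hij this
  have hcard : ({f1, f2, f3, f4} : Finset (E d)).card = 4 := by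
    rw [card_insert_of_notMem, card_insert_of_notMem, card_insert_of_notMem, card_singleton]
    · simpa using h34
    · simp [h23, h24]
    · simp [h12, h13, h14]
  rw [← hcard]
  refine card_le_card ?_
  intro f hf
  rw [mem_filter]
  refine ⟨mem_univ _, ?_⟩
  simp only [mem_insert, mem_singleton] at hf
  have hoff : ∀ k, k ∉ c.1 → k ≠ i ∧ k ≠ j := by
    intro k hk
    rw [hS] at hk
    simpa using hk
  rcases hf with rfl | rfl | rfl | rfl
  · exact ⟨by show i ∈ c.1; rw [hS]; simp, fun k _ => rfl⟩
  · exact ⟨by show j ∈ c.1; rw [hS]; simp, fun k _ => rfl⟩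
  · exact ⟨by show i ∈ c.1; rw [hS]; simp, fun k hk => Function.update_of_ne (hoff k hk).2 _ _⟩
  · exact ⟨by show j ∈ c.1; rw [hS]; simp, fun k hk => Function.update_of_ne (hoff k hk).1 _ _⟩

theorem biUnion_le {ι β : Type} [DecidableEq β] (s : Finset ι) (T : ι → Finset β) (f : β → ℝ)
    (hf : ∀ b, 0 ≤ f b) : ∑ b ∈ s.biUnion T, f b ≤ ∑ i ∈ s, ∑ b ∈ T i, f b := by
  classical
  induction s using Finset.induction_on with
  | empty => simp
  | insert a s ha ih =>
    rw [biUnion_insert, sum_insert ha]
    have h1 := sum_union_inter (s₁ := T a) (s₂ := s.biUnion T) (f := f)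
    have h2 : 0 ≤ ∑ b ∈ T a ∩ s.biUnion T, f b := sum_nonneg (fun b _ => hf b)
    linarith

open Classical in
theorem t : StLoc := by
  intro d e p h0 h1
  set Good := univ.filter (fun W : Finset (E d) => e ∈ W ∧
    ∀ c ∈ Copies d 2, InCopy c e → ∃ f : E d, InCopy c f ∧ f ≠ e ∧ f ∉ W) with hGood
  have hE : ∑ W ∈ univ.filter (fun W : Finset (E d) => {e} ⊆ W), wt (E d) p W = p := by
    have h := sum_wt_superset (E d) p {e}
    rw [card_singleton, pow_one] at h
    convert h
  set Cs := (Copies d 2).filter (fun c => InCopy c e) with hCs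
  have hsub : univ.filter (fun W : Finset (E d) => {e} ⊆ W) ⊆
      Good ∪ Cs.biUnion (fun c => univ.filter
        (fun W : Finset (E d) => (univ.filter (fun f : E d => InCopy c f)) ⊆ W)) := by
    intro W hW
    rw [mem_filter, singleton_subset_iff] at hW
    rw [mem_union]
    by_cases hg : W ∈ Good
    · exact Or.inl hg
    · right
      rw [hGood, mem_filter] at hg
      push Not at hg
      obtain ⟨c, hc, hce, hf⟩ := hg (mem_univ _) hW.2
      rw [mem_biUnion]
      refine ⟨c, by rw [hCs, mem_filter]; exact ⟨hc, hce⟩, ?_⟩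
      rw [mem_filter]
      refine ⟨mem_univ _, ?_⟩
      intro f hfc
      rw [mem_filter] at hfc
      by_cases hfe : f = e
      · rw [hfe]; exact hW.2
      · exact hf f hfc.2 hfe
  have hbad : ∑ W ∈ Cs.biUnion (fun c => univ.filter
        (fun W : Finset (E d) => (univ.filter (fun f : E d => InCopy c f)) ⊆ W)), wt (E d) p W
      ≤ d * p ^ 4 := by
    refine (biUnion_le _ _ _ (wt_nonneg _ p h0 h1)).trans ?_
    calc ∑ c ∈ Cs, ∑ W ∈ univ.filter
          (fun W : Finset (E d) => (univ.filter (fun f : E d => InCopy c f)) ⊆ W), wt (E d) p W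
        ≤ ∑ c ∈ Cs, p ^ 4 := by
          refine sum_le_sum (fun c hc => ?_)
          rw [hCs, mem_filter] at hc
          have h := sum_wt_superset (E d) p (univ.filter (fun f : E d => InCopy c f))
          have h4 := four_le d c hc.1
          have h5 : p ^ (univ.filter (fun f : E d => InCopy c f)).card ≤ p ^ 4 :=
            pow_le_pow_of_le_one h0 h1 h4
          refine le_trans (le_of_eq ?_) h5
          rw [← h]
          congr!
      _ = (Cs.card : ℝ) * p ^ 4 := by rw [sum_const, nsmul_eq_mul]
      _ ≤ d * p ^ 4 := by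
          have := card_copies d e
          have h6 : (Cs.card : ℝ) ≤ d := by exact_mod_cast this
          exact mul_le_mul_of_nonneg_right h6 (by positivity)
  have h2 : p ≤ ∑ W ∈ Good, wt (E d) p W + ∑ W ∈ Cs.biUnion (fun c => univ.filter
        (fun W : Finset (E d) => (univ.filter (fun f : E d => InCopy c f)) ⊆ W)), wt (E d) p W := by
    calc p = ∑ W ∈ univ.filter (fun W : Finset (E d) => {e} ⊆ W), wt (E d) p W := hE.symm
      _ ≤ ∑ W ∈ Good ∪ Cs.biUnion (fun c => univ.filter
        (fun W : Finset (E d) => (univ.filter (fun f : E d => InCopy c f)) ⊆ W)), wt (E d) p W :=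
          sum_le_sum_of_subset_of_nonneg hsub (fun W _ _ => wt_nonneg _ p h0 h1 W)
      _ ≤ _ := by
          rw [← sum_union_inter]
          have : 0 ≤ ∑ W ∈ Good ∩ Cs.biUnion (fun c => univ.filter
        (fun W : Finset (E d) => (univ.filter (fun f : E d => InCopy c f)) ⊆ W)), wt (E d) p W :=
            sum_nonneg (fun W _ => wt_nonneg _ p h0 h1 W)
          linarith
  linarith

end Pool.Agent.K7.H88.ECLOC
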