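import Pool.Agent.K7.H87.EX.Stm

/-! Job NILA of project EX (helper87). -/

set_option autoImplicit false

namespace Pool.Agent.K7.H88.EXNILA

open Pool.Agent.K7.H87.EX

theorem step {G : Type} [Group G] (htf : ∀ g : G, g ≠ 1 → ¬ IsOfFinOrder g) (g : G) (n : ℕ)
    (hn : 0 < n) (hc : ∀ u : G, u * g ^ n = g ^ n * u) (v : G)
    (h : (v⁻¹ * g⁻¹ * v * g)⁻¹ * g⁻¹ * (v⁻¹ * g⁻¹ * v * g) * g = 1) :
    v⁻¹ * g⁻¹ * v * g = 1 := by
  set w := v⁻¹ * g⁻¹ * v * g with hw
  have hwg : Commute g w := by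
    have h1 : w⁻¹ * g⁻¹ * w * g = 1 := h
    have h2 : (g * w)⁻¹ * (w * g) = 1 := by rw [mul_inv_rev]; simpa [mul_assoc] using h1
    exact (inv_mul_eq_one.mp h2)
  have h3 : v⁻¹ * g * v = g * w⁻¹ := by
    rw [hw]; group
  have h4 : (v⁻¹ * g * v) ^ n = v⁻¹ * g ^ n * v := by
    have := conj_pow (a := v⁻¹) (b := g) (i := n)
    simpa using this
  have h5 : v⁻¹ * g ^ n * v = g ^ n := by
    rw [mul_assoc, ← hc v]; group
  have h6 : (g * w⁻¹) ^ n = g ^ n * (w⁻¹) ^ n := (hwg.inv_right).mul_pow n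
  have h7 : (w⁻¹) ^ n = 1 := by
    have : g ^ n * (w⁻¹) ^ n = g ^ n := by rw [← h6, ← h3, h4, h5]
    simpa using this
  by_contra hne
  refine htf w⁻¹ (by simpa using hne) ?_
  exact isOfFinOrder_iff_pow_eq_one.mpr ⟨n, hn, h7⟩

theorem t : StNilA := by
  intro G _ H _ htf hper heng hR g n hn hgn hcH
  -- g ^ n is central
  have hc : ∀ u : G, u * g ^ n = g ^ n * u := by
    intro u
    obtain ⟨m, hm, hm1⟩ := isOfFinOrder_iff_pow_eq_one.mp (hper (u : G ⧸ H))
    have hmem : u ^ m ∈ H := by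
      rw [← QuotientGroup.mk_pow] at hm1
      exact (QuotientGroup.eq_one_iff _).mp hm1
    exact (hR (g ^ n) hgn u m hm (hcH _ hmem).symm).symm
  have hgH : ∀ h ∈ H, h * g = g * h := fun h hh => hR h hh g n hn (hcH h hh)
  rw [Subgroup.mem_center_iff]
  intro u
  let F : G → G := fun z => z⁻¹ * g⁻¹ * z * g
  obtain ⟨r, hr⟩ := heng (u : G ⧸ H) (g : G ⧸ H)
  have hmap : ∀ k : ℕ, ∀ x : G, (fun z : G ⧸ H => z⁻¹ * (g : G ⧸ H)⁻¹ * z * (g : G ⧸ H))^[k] (x : G ⧸ H)
      = ((F^[k] x : G) : G ⧸ H) := by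
    intro k
    induction k with
    | zero => intro x; rfl
    | succ k ih =>
      intro x
      rw [Function.iterate_succ_apply, Function.iterate_succ_apply, ← ih]
      rfl
  have hrH : F^[r] u ∈ H := by
    rw [hmap r u] at hr
    exact (QuotientGroup.eq_one_iff _).mp hr
  have hr1 : F^[r + 1] u = 1 := by
    rw [Function.iterate_succ_apply']
    have := hgH _ hrH
    show (F^[r] u)⁻¹ * g⁻¹ * (F^[r] u) * g = 1
    rw [mul_assoc, this]; group
  have hdesc : ∀ k : ℕ, F^[k + 1] u = 1 → F u = 1 := by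
    intro k
    induction k with
    | zero => intro h; exact h
    | succ k ih =>
      intro h
      apply ih
      rw [Function.iterate_succ_apply'] at h ⊢
      rw [Function.iterate_succ_apply'] at h
      exact step htf g n hn hc _ h
  have hF : u⁻¹ * g⁻¹ * u * g = 1 := hdesc r hr1
  have h2 : (g * u)⁻¹ * (u * g) = 1 := by rw [mul_inv_rev]; simpa [mul_assoc] using hF
  exact (inv_mul_eq_one.mp h2).symm

end Pool.Agent.K7.H88.EXNILA
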