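import Pool.Agent.K7.H87.EX.Stm2

/-! Job SOLV of project EX2 (helper87). -/

set_option autoImplicit false

namespace Pool.Agent.K7.H88.EXSOLV

open Pool.Agent.K7.H87.EX

section basic
variable {K : Type} [Group K] (N : Subgroup K) (hN : N.Normal)

theorem cj_mul (g : K) (a b : N) : cj N hN g (a * b) = cj N hN g a * cj N hN g b := by
  apply Subtype.ext
  show g * ((a : K) * b) * g⁻¹ = (g * a * g⁻¹) * (g * b * g⁻¹)
  group

theorem cj_comp (g h : K) (a : N) : cj N hN (g * h) a = cj N hN g (cj N hN h a) := by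
  apply Subtype.ext
  show (g * h) * (a : K) * (g * h)⁻¹ = g * (h * a * h⁻¹) * g⁻¹
  group

theorem cj_one (a : N) : cj N hN 1 a = a := by
  apply Subtype.ext
  show (1 : K) * a * 1⁻¹ = a
  group

theorem cj_inv (g : K) (a : N) : cj N hN g a⁻¹ = (cj N hN g a)⁻¹ := by
  apply Subtype.ext
  show g * (a : K)⁻¹ * g⁻¹ = (g * a * g⁻¹)⁻¹
  group

theorem cj_one' (g : K) : cj N hN g 1 = 1 := by
  apply Subtype.ext
  show g * (1 : K) * g⁻¹ = 1
  group

theorem cj_coe (b a : N) : cj N hN (b : K) a = b * a * b⁻¹ := by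
  apply Subtype.ext
  rfl

theorem cj_cancel (g : K) (a : N) : cj N hN g⁻¹ (cj N hN g a) = a := by
  rw [← cj_comp, inv_mul_cancel, cj_one]

theorem cj_cancel' (g : K) (a : N) : cj N hN g (cj N hN g⁻¹ a) = a := by
  rw [← cj_comp, mul_inv_cancel, cj_one]

end basic

theorem t (hLev : StLev) (hDrop : StDrop) (hCom : StCom) (hInv : StInv) : StSolv := by
  intro K _ N hN _ hl hr hc hfin hcen
  obtain ⟨L0, Lmul, Linv, -, M, hM⟩ := hLev N hl hr hfin
  have hinv := hInv K N hN hl hr hc hfin
  have hdrop := hDrop K N hN hl hr hc hfin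
  have hcom := hCom N hl hr hfin
  have lev1 : lev (1 : N) = 0 := (L0 1).mpr rfl
  -- invariance of `lev`
  have levcj : ∀ (g : K) (a : N), lev (cj N hN g a) = lev a := by
    intro g a
    unfold lev
    congr 1
    ext C
    simp only [Set.mem_setOf_eq]
    constructor
    · rintro ⟨hC, h⟩
      exact ⟨hC, fun ha => h (hinv g C hC a ha)⟩
    · rintro ⟨hC, h⟩
      refine ⟨hC, fun ha => h ?_⟩
      have := hinv g⁻¹ C hC _ ha
      rwa [cj_cancel] at this
  have levconj : ∀ b a : N, lev (b * a * b⁻¹) = lev a := by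
    intro b a
    rw [← cj_coe N hN]; exact levcj _ _
  have levconj' : ∀ b a : N, lev (b⁻¹ * a * b) = lev a := by
    intro b a
    have := levconj b⁻¹ a
    rwa [inv_inv] at this
  -- the subgroups `T j`
  let T : ℕ → Subgroup K := fun j =>
    { carrier := {g | ∀ a : N, lev (a⁻¹ * cj N hN g a) ≤ j}
      mul_mem' := by
        intro g g' hg hg' a
        have e : a⁻¹ * cj N hN (g * g') a
            = (a⁻¹ * cj N hN g' a) * ((cj N hN g' a)⁻¹ * cj N hN g (cj N hN g' a)) := by
          rw [cj_comp]; group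
        rw [e]
        exact (Lmul _ _).trans (max_le (hg' a) (hg _))
      one_mem' := by
        intro a
        rw [cj_one, inv_mul_cancel, lev1]; exact Nat.zero_le _
      inv_mem' := by
        intro g hg a
        have e : a⁻¹ * cj N hN g⁻¹ a
            = ((cj N hN g⁻¹ a)⁻¹ * cj N hN g (cj N hN g⁻¹ a))⁻¹ := by
          rw [cj_cancel']; group
        rw [e, Linv]
        exact hg _ }
  have hT : ∀ (j : ℕ) (g : K), g ∈ T j ↔ ∀ a : N, lev (a⁻¹ * cj N hN g a) ≤ j := fun j g => Iff.rfl
  have hdrop' : ∀ g ∈ commutator K, ∀ (a : N) (j : ℕ), 0 < j → lev a ≤ j →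
      lev (a⁻¹ * cj N hN g a) < j := by
    intro g hg a j hj ha
    by_cases h1 : a = 1
    · rw [h1, cj_one', inv_one, one_mul, lev1]; exact hj
    · exact (hdrop g hg a h1).trans_le ha
  have hcom' : ∀ (u v : N) (j : ℕ), 0 < j → lev u ≤ j → lev v ≤ j →
      lev (u⁻¹ * v⁻¹ * u * v) < j := by
    intro u v j hj hu hv
    by_cases h1 : u = 1
    · have : u⁻¹ * v⁻¹ * u * v = 1 := by rw [h1]; group
      rw [this, lev1]; exact hj
    · rcases le_or_gt (lev v) (lev u) with h | h
      · exact (hcom u v h1 h).trans_le hu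
      · have hv1 : v ≠ 1 := by
          intro hv1
          rw [hv1, lev1] at h
          omega
        have h2 := (hcom v u hv1 h.le).trans_le hv
        have e : u⁻¹ * v⁻¹ * u * v = (v⁻¹ * u⁻¹ * v * u)⁻¹ := by group
        rw [e, Linv]; exact h2
  -- the step
  have hstep : ∀ (j : ℕ) (g g' : K), g ∈ commutator K → g' ∈ commutator K → g ∈ T j → g' ∈ T j →
      g * g' * g⁻¹ * g'⁻¹ ∈ T (j - 1) := by
    intro j g g' hgc hgc' hg hg'
    rcases Nat.eq_zero_or_pos j with hj | hj
    · subst hj
      exact (T 0).mul_mem ((T 0).mul_mem ((T 0).mul_mem hg hg') ((T 0).inv_mem hg))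
        ((T 0).inv_mem hg')
    · have key : ∀ a : N, lev ((cj N hN (g' * g) a)⁻¹ * cj N hN (g * g') a) < j := by
        intro a
        set u := a⁻¹ * cj N hN g a with hu
        set v := a⁻¹ * cj N hN g' a with hv
        have hlu : lev u ≤ j := hg a
        have hlv : lev v ≤ j := hg' a
        have eu : cj N hN g a = a * u := by rw [hu]; group
        have ev : cj N hN g' a = a * v := by rw [hv]; group
        have e1 : cj N hN (g' * g) a = a * v * cj N hN g' u := by
          rw [cj_comp, eu, cj_mul, ev]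
        have e2 : cj N hN (g * g') a = a * u * cj N hN g v := by
          rw [cj_comp, ev, cj_mul, eu]
        have d1 : lev (u⁻¹ * cj N hN g' u) < j := hdrop' g' hgc' u j hj hlu
        have d2 : lev (v⁻¹ * cj N hN g v) < j := hdrop' g hgc v j hj hlv
        have d3 : lev (u⁻¹ * v⁻¹ * u * v) < j := hcom' u v j hj hlu hlv
        have e3 : (cj N hN (g' * g) a)⁻¹ * cj N hN (g * g') a
            = (u⁻¹ * cj N hN g' u)⁻¹ * ((u⁻¹ * v⁻¹ * u * v) * (v⁻¹ * cj N hN g v)) := by
          rw [e1, e2]; group
        rw [e3]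
        refine (Lmul _ _).trans_lt (max_lt ?_ ((Lmul _ _).trans_lt (max_lt d3 d2)))
        rw [Linv]; exact d1
      rw [hT]
      intro a
      have k := key (cj N hN (g' * g)⁻¹ a)
      rw [cj_cancel'] at k
      have e4 : cj N hN (g * g') (cj N hN (g' * g)⁻¹ a) = cj N hN (g * g' * g⁻¹ * g'⁻¹) a := by
        rw [← cj_comp]; congr 1; group
      rw [e4] at k
      omega
  have hmain : ∀ i : ℕ, derivedSeries K (i + 1) ≤ T (M - (i + 1)) := by
    intro i
    induction i with
    | zero =>
      intro g hg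
      have hg' : g ∈ commutator K := by
        rw [zero_add, derivedSeries_one] at hg; exact hg
      rw [hT]
      intro a
      by_cases h1 : a = 1
      · rw [h1, cj_one', inv_one, one_mul, lev1]; exact Nat.zero_le _
      · have := hdrop g hg' a h1
        have := hM a
        omega
    | succ i ih =>
      rw [derivedSeries_succ, Subgroup.commutator_le]
      intro g hg g' hg'
      have hsub : derivedSeries K (i + 1) ≤ commutator K := by
        rw [← derivedSeries_one]
        exact derivedSeries_antitone K (by omega)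
      have := hstep (M - (i + 1)) g g' (hsub hg) (hsub hg') (ih hg) (ih hg')
      rw [commutatorElement_def]
      have e : M - (i + 1) - 1 = M - (i + 1 + 1) := by omega
      rw [e] at this
      exact this
  have hcenter : derivedSeries K (M + 1) ≤ Subgroup.center K := by
    intro g hg
    apply hcen
    intro a ha
    have h := hmain M hg ⟨a, ha⟩
    have h0 : lev ((⟨a, ha⟩ : N)⁻¹ * cj N hN g ⟨a, ha⟩) = 0 := by
      have : M - (M + 1) = 0 := by omega
      rw [this] at h
      exact Nat.le_zero.mp h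
    rw [L0] at h0
    have h2 : cj N hN g ⟨a, ha⟩ = ⟨a, ha⟩ := (inv_mul_eq_one.mp h0).symm
    have h3 : g * a * g⁻¹ = a := congrArg Subtype.val h2
    have h4 : g * a = a * g := by
      rw [mul_inv_eq_iff_eq_mul] at h3; exact h3
    exact h4.symm
  refine ⟨⟨M + 2, ?_⟩⟩
  rw [show M + 2 = (M + 1) + 1 from rfl, derivedSeries_succ, eq_bot_iff, Subgroup.commutator_le]
  intro g hg g' hg'
  rw [Subgroup.mem_bot, commutatorElement_eq_one_iff_mul_comm]
  exact (Subgroup.mem_center_iff.mp (hcenter hg') g)

end Pool.Agent.K7.H88.EXSOLV
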